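import Pool.Agent.helper92.ISA.Spec

/-!
# Row SND of project ISA
-/

set_option autoImplicit false

open Filter Topology

namespace Pool.Agent.ISA

open Pool.Agent.PB Pool.Agent.ISO

theorem SND_proof (hWTC : ISO.WTC_stmt) : ISA.SND_stmt := by
  classical
  intro n w M R N k m A p f h K W e0 X u x hK hW hP hu hx
  have h1 : ∀ e, e ≠ e0 → ∀ y, f (Fin.append (Function.update X e0 x e) y) = true ↔ y = u e := by
    intro e he y
    rw [Function.update_of_ne he]
    exact hu e he y
  have h2 : ∀ y, f (Fin.append (Function.update X e0 x e0) y) = false := by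
    intro y
    rw [Function.update_self]
    exact hx y
  obtain ⟨h3, h4⟩ := hWTC n w M R N f h K (Function.update X e0 x) u e0 h1 h2
  have h5 := hP (enc N (Function.update X e0 x)) (by rw [h3]; exact (hK e0).1) (by rw [h3]; exact (hK e0).2)
  have h6 : ∀ i, wit (W i) (enc N (Function.update X e0 x)) = tcnt K (W i) e0 X u x := fun i => h4 (W i) (hW i)
  simp only [h6] at h5
  unfold test
  rw [decide_eq_false_iff_not, not_lt]
  exact h5

end Pool.Agent.ISA
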